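import Pool.Agent.Lib.MP_305fdd_al.Fr.Roq.Insep
import Pool.Agent.Lib.MP_305fdd_al.Fr.N.Defs

/-!
# Commutative subgroups of linear groups over finitely generated domains

`Γ` a finitely generated group, `ρ : Γ → SL_2(F)`, characteristic two, `T(g) = 0` only for `g = 1`.
Then every commutative subgroup of `Γ` is finitely generated (`FrRoq.comm_fg`).
-/

set_option autoImplicit false

namespace FrRoq

open scoped nonZeroDivisors

section vec

variable {L : Type*} [Field L]

/-- eigenvectors of a non-scalar matrix are proportional -/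
theorem eig_prop (M : Matrix (Fin 2) (Fin 2) L) (c : L) (hM : M ≠ c • (1 : Matrix (Fin 2) (Fin 2) L))
    (w w' : Fin 2 → L) (hw0 : w ≠ 0) (hw : M.mulVec w = c • w) (hw' : M.mulVec w' = c • w') :
    ∃ x : L, w' = x • w := by
  have e0 := congrFun hw 0
  have e1 := congrFun hw 1
  have f0 := congrFun hw' 0
  have f1 := congrFun hw' 1
  simp only [Matrix.mulVec, dotProduct, Fin.sum_univ_two, Pi.smul_apply, smul_eq_mul] at e0 e1 f0 f1
  have hdet : w 0 * w' 1 - w 1 * w' 0 = 0 := by
    by_contra hne
    apply hM
    have g00 : (M 0 0 - c) * (w 0 * w' 1 - w 1 * w' 0) = 0 := by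
      linear_combination w' 1 * e0 - w 1 * f0
    have g01 : M 0 1 * (w 0 * w' 1 - w 1 * w' 0) = 0 := by
      linear_combination w 0 * f0 - w' 0 * e0
    have g10 : M 1 0 * (w 0 * w' 1 - w 1 * w' 0) = 0 := by
      linear_combination w' 1 * e1 - w 1 * f1
    have g11 : (M 1 1 - c) * (w 0 * w' 1 - w 1 * w' 0) = 0 := by
      linear_combination w 0 * f1 - w' 0 * e1
    have k00 := (mul_eq_zero.1 g00).resolve_right hne
    have k01 := (mul_eq_zero.1 g01).resolve_right hne
    have k10 := (mul_eq_zero.1 g10).resolve_right hne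
    have k11 := (mul_eq_zero.1 g11).resolve_right hne
    ext i j
    fin_cases i <;> fin_cases j
    · simpa using sub_eq_zero.1 k00
    · simpa using k01
    · simpa using k10
    · simpa using sub_eq_zero.1 k11
  by_cases h0 : w 0 = 0
  · have h1 : w 1 ≠ 0 := by
      intro h1
      apply hw0
      ext i
      fin_cases i
      · exact h0
      · exact h1
    refine ⟨w' 1 / w 1, ?_⟩
    ext i
    fin_cases i
    · show w' 0 = w' 1 / w 1 * w 0
      rw [h0, zero_mul, zero_sub, neg_eq_zero] at hdet
      rw [h0, mul_zero]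
      exact (mul_eq_zero.1 hdet).resolve_left h1
    · show w' 1 = w' 1 / w 1 * w 1
      field_simp
  · refine ⟨w' 0 / w 0, ?_⟩
    ext i
    fin_cases i
    · show w' 0 = w' 0 / w 0 * w 0
      field_simp
    · show w' 1 = w' 0 / w 0 * w 1
      field_simp
      linear_combination hdet

/-- eigenvalues are roots of the characteristic polynomial -/
theorem eig_root (M : Matrix (Fin 2) (Fin 2) L) (hdet : M.det = 1) (c : L)
    (w : Fin 2 → L) (hw0 : w ≠ 0) (hw : M.mulVec w = c • w) :
    c ^ 2 - M.trace * c + 1 = 0 := by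
  have e0 := congrFun hw 0
  have e1 := congrFun hw 1
  simp only [Matrix.mulVec, dotProduct, Fin.sum_univ_two, Pi.smul_apply, smul_eq_mul] at e0 e1
  rw [Matrix.det_fin_two] at hdet
  rw [Matrix.trace_fin_two]
  have g0 : (c ^ 2 - (M 0 0 + M 1 1) * c + 1) * w 0 = 0 := by
    linear_combination (M 1 1 - c) * e0 - M 0 1 * e1 - w 0 * hdet
  have g1 : (c ^ 2 - (M 0 0 + M 1 1) * c + 1) * w 1 = 0 := by
    linear_combination (M 0 0 - c) * e1 - M 1 0 * e0 - w 1 * hdet
  by_contra hne
  apply hw0
  ext i
  fin_cases i
  · exact (mul_eq_zero.1 g0).resolve_left hne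
  · exact (mul_eq_zero.1 g1).resolve_left hne

/-- a root of the characteristic polynomial has an eigenvector -/
theorem eig_vec (M : Matrix (Fin 2) (Fin 2) L) (hdet : M.det = 1) (c : L)
    (hc : c ^ 2 - M.trace * c + 1 = 0) : ∃ w : Fin 2 → L, w ≠ 0 ∧ M.mulVec w = c • w := by
  have h : (M - c • (1 : Matrix (Fin 2) (Fin 2) L)).det = 0 := by
    rw [Matrix.det_fin_two] at hdet ⊢
    rw [Matrix.trace_fin_two] at hc
    simp only [Matrix.sub_apply, Matrix.smul_apply, Matrix.one_apply, smul_eq_mul]
    simp
    linear_combination hc + hdet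
  obtain ⟨w, hw0, hw⟩ := Matrix.exists_mulVec_eq_zero_iff.2 h
  refine ⟨w, hw0, ?_⟩
  rw [Matrix.sub_mulVec, Matrix.smul_mulVec, Matrix.one_mulVec, sub_eq_zero] at hw
  exact hw

end vec

/-- The characters of a commutative group of matrices. -/
theorem comm_aux {P L O A : Type} [CommRing P] [Field L] [Algebra P L] [CommRing O]
    [CommGroup A] (hN : IsNoetherian ℤ (Additive (intUnits P L)))
    (h2 : (2 : L) = 0) (φ : O →+* L) (hφ : Function.Injective φ) (hint : ∀ x, IsIntegral P (φ x))
    (σ : A →* Matrix.SpecialLinearGroup (Fin 2) O) (hT : ∀ a, (σ a).1.trace = 0 → a = 1)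
    (a : A) (ha : a ≠ 1) (c : L) (hc : c ^ 2 - φ (σ a).1.trace * c + 1 = 0) :
    Group.FG A := by
  classical
  -- the matrices over `L`
  let M : A → Matrix (Fin 2) (Fin 2) L := fun b => (σ b).1.map φ
  have hMmul : ∀ b b', M (b * b') = M b * M b' := by
    intro b b'
    show ((σ (b * b')).1).map φ = _
    rw [map_mul, Matrix.SpecialLinearGroup.coe_mul, Matrix.map_mul]
  have hMone : M 1 = 1 := by
    show ((σ 1).1).map φ = _
    rw [map_one, Matrix.SpecialLinearGroup.coe_one, Matrix.map_one _ (map_zero φ) (map_one φ)]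
  have hMdet : ∀ b, (M b).det = 1 := by
    intro b
    show (((σ b).1).map φ).det = 1
    have := (RingHom.map_det φ (σ b).1).symm
    rw [RingHom.mapMatrix_apply] at this
    rw [this, (σ b).2, map_one]
  have hMtr : ∀ b, (M b).trace = φ (σ b).1.trace := by
    intro b
    rw [Matrix.trace_fin_two, Matrix.trace_fin_two, map_add]
    rfl
  have hT' : ∀ b, (M b).trace = 0 → b = 1 := by
    intro b hb
    apply hT
    apply hφ
    rw [← hMtr, hb, map_zero]
  rw [← hMtr] at hc
  obtain ⟨w, hw0, hw⟩ := eig_vec (M a) (hMdet a) c hc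
  have hns : M a ≠ c • (1 : Matrix (Fin 2) (Fin 2) L) := by
    intro h
    apply ha
    apply hT'
    rw [h, Matrix.trace_fin_two]
    simp only [Matrix.smul_apply, Matrix.one_apply_eq, smul_eq_mul, mul_one]
    linear_combination c * h2
  -- the eigenvalues
  have hex : ∀ b, ∃ x : L, (M b).mulVec w = x • w := by
    intro b
    refine eig_prop (M a) c hns w ((M b).mulVec w) hw0 hw ?_
    rw [Matrix.mulVec_mulVec, ← hMmul, mul_comm a b, hMmul, ← Matrix.mulVec_mulVec, hw,
      Matrix.mulVec_smul]
  choose χ hχ using hex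
  have huniq : ∀ x y : L, x • w = y • w → x = y := by
    intro x y hxy
    have h1 : (x - y) • w = 0 := by rw [sub_smul, hxy, sub_self]
    rcases smul_eq_zero.1 h1 with h | h
    · exact sub_eq_zero.1 h
    · exact absurd h hw0
  have hχmul : ∀ b b', χ (b * b') = χ b * χ b' := by
    intro b b'
    apply huniq
    rw [← hχ, hMmul, ← Matrix.mulVec_mulVec, hχ b', Matrix.mulVec_smul, hχ b, smul_smul, mul_comm]
  have hχone : χ 1 = 1 := by
    apply huniq
    rw [← hχ, hMone, Matrix.one_mulVec, one_smul]
  let X : A →* L := ⟨⟨χ, hχone⟩, hχmul⟩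
  let Y : A →* Lˣ := X.toHomUnits
  have hY : ∀ b, ((Y b : Lˣ) : L) = χ b := fun b => MonoidHom.coe_toHomUnits X b
  have hroot : ∀ b, χ b ^ 2 - (M b).trace * χ b + 1 = 0 := fun b =>
    eig_root (M b) (hMdet b) (χ b) w hw0 (hχ b)
  have hχint : ∀ b, IsIntegral P (χ b) := by
    intro b
    -- root of a monic polynomial with coefficients in the integral closure
    have h1 : IsIntegral (integralClosure P L) (χ b) := by
      let t : integralClosure P L := ⟨(M b).trace, by rw [hMtr]; exact hint _⟩
      refine ⟨Polynomial.X ^ 2 + (Polynomial.C (-t) * Polynomial.X + Polynomial.C 1), ?_, ?_⟩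
      · refine Polynomial.monic_X_pow_add ?_
        refine lt_of_le_of_lt (Polynomial.degree_linear_le) ?_
        norm_num
      · rw [Polynomial.eval₂_add, Polynomial.eval₂_add, Polynomial.eval₂_mul,
          Polynomial.eval₂_pow, Polynomial.eval₂_X, Polynomial.eval₂_C, Polynomial.eval₂_C,
          map_neg, map_one]
        have ht : algebraMap (integralClosure P L) L t = (M b).trace := rfl
        rw [ht]
        linear_combination hroot b
    exact isIntegral_trans (R := P) (A := integralClosure P L) (χ b) h1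
  have hYmem : ∀ b, Y b ∈ intUnits P L := by
    intro b
    refine ⟨?_, ?_⟩
    · rw [hY]
      exact hχint b
    · rw [← map_inv, hY]
      exact hχint b⁻¹
  have hYinj : Function.Injective Y := by
    rw [injective_iff_map_eq_one]
    intro b hb
    apply hT'
    have h1 : χ b = 1 := by
      rw [← hY, hb, Units.val_one]
    have h3 := hroot b
    rw [h1] at h3
    linear_combination h2 - h3
  let Z : A →* intUnits P L := Y.codRestrict (intUnits P L) hYmem
  have hZ : Function.Injective Z := by
    intro b b' h
    exact hYinj (congrArg Subtype.val h)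
  have hNA : IsNoetherian ℤ (Additive A) :=
    isNoetherian_of_injective (Z.toAdditive).toIntLinearMap (fun u v huv => hZ huv)
  have hfin : Module.Finite ℤ (Additive A) := inferInstance
  have hfg : AddGroup.FG (Additive A) := Module.Finite.iff_addGroup_fg.1 hfin
  exact GroupFG.iff_add_fg.2 hfg

theorem exists_root_ext (F : Type) [Field F] (t : F) : ∃ (L : Type) (_ : Field L)
    (_ : Algebra F L), FiniteDimensional F L ∧ ∃ c : L, c ^ 2 - algebraMap F L t * c + 1 = 0 := by
  let f : Polynomial F := Polynomial.X ^ 2 + (Polynomial.C (-t) * Polynomial.X + Polynomial.C 1)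
  have hlt : (Polynomial.C (-t) * Polynomial.X + Polynomial.C 1 : Polynomial F).degree < 2 := by
    refine lt_of_le_of_lt (Polynomial.degree_linear_le) ?_
    norm_num
  have hf : f.degree ≠ 0 := by
    have : f.degree = 2 := by
      show (Polynomial.X ^ 2 + (Polynomial.C (-t) * Polynomial.X + Polynomial.C 1)).degree = 2
      rw [Polynomial.degree_add_eq_left_of_degree_lt]
      · exact Polynomial.degree_X_pow 2
      · rw [Polynomial.degree_X_pow]
        exact hlt
    rw [this]
    norm_num
  refine ⟨f.SplittingField, inferInstance, inferInstance, inferInstance, ?_⟩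
  obtain ⟨c, hc⟩ := (Polynomial.SplittingField.splits f).exists_eval_eq_zero
    (by rwa [Polynomial.degree_map])
  refine ⟨c, ?_⟩
  rw [Polynomial.eval_map] at hc
  have : Polynomial.eval₂ (algebraMap F f.SplittingField) c
      (Polynomial.X ^ 2 + (Polynomial.C (-t) * Polynomial.X + Polynomial.C 1)) = 0 := hc
  rw [Polynomial.eval₂_add, Polynomial.eval₂_add, Polynomial.eval₂_mul,
          Polynomial.eval₂_pow, Polynomial.eval₂_X, Polynomial.eval₂_C, Polynomial.eval₂_C,
          map_neg, map_one] at this
  linear_combination this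

/-- Core: a commutative group of matrices over a finitely generated domain over a finite field of
characteristic two. -/
theorem comm_core {k O A : Type} [Field k] [Finite k] [CharP k 2] [CommRing O] [IsDomain O]
    [Algebra k O] [Algebra.FiniteType k O] [CommGroup A]
    (σ : A →* Matrix.SpecialLinearGroup (Fin 2) O) (hT : ∀ a, (σ a).1.trace = 0 → a = 1) :
    Group.FG A := by
  classical
  by_cases htriv : ∀ a : A, a = 1
  · have : Finite A := by
      have : Subsingleton A := ⟨fun a b => by rw [htriv a, htriv b]⟩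
      infer_instance
    infer_instance
  push Not at htriv
  obtain ⟨a, ha⟩ := htriv
  obtain ⟨d, g, hg, hgf⟩ := exists_finite_inj_algHom_of_fg k O
  letI : Algebra (MvPolynomial (Fin d) k) O := g.toRingHom.toAlgebra
  haveI : Module.Finite (MvPolynomial (Fin d) k) O := hgf
  haveI hFS : FaithfulSMul (MvPolynomial (Fin d) k) O :=
    (faithfulSMul_iff_algebraMap_injective _ O).2 hg
  haveI : Module.IsTorsionFree (MvPolynomial (Fin d) k) O := inferInstance
  letI : Algebra (FractionRing (MvPolynomial (Fin d) k)) (FractionRing O) :=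
    FractionRing.liftAlgebra _ _
  haveI : FiniteDimensional (FractionRing (MvPolynomial (Fin d) k)) (FractionRing O) :=
    inferInstance
  haveI : IsScalarTower (MvPolynomial (Fin d) k) (FractionRing (MvPolynomial (Fin d) k))
    (FractionRing O) := inferInstance
  -- the splitting field
  obtain ⟨L, _, _, hLF, c, hc⟩ := exists_root_ext (FractionRing O)
    (algebraMap O (FractionRing O) (σ a).1.trace)
  letI : Algebra (FractionRing (MvPolynomial (Fin d) k)) L :=
    ((algebraMap (FractionRing O) L).comp
      (algebraMap (FractionRing (MvPolynomial (Fin d) k)) (FractionRing O))).toAlgebra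
  haveI : IsScalarTower (FractionRing (MvPolynomial (Fin d) k)) (FractionRing O) L :=
    IsScalarTower.of_algebraMap_eq' rfl
  haveI : FiniteDimensional (FractionRing (MvPolynomial (Fin d) k)) L :=
    FiniteDimensional.trans (FractionRing (MvPolynomial (Fin d) k)) (FractionRing O) L
  letI : Algebra (MvPolynomial (Fin d) k) L :=
    ((algebraMap (FractionRing (MvPolynomial (Fin d) k)) L).comp
      (algebraMap (MvPolynomial (Fin d) k) (FractionRing (MvPolynomial (Fin d) k)))).toAlgebra
  haveI : IsScalarTower (MvPolynomial (Fin d) k) (FractionRing (MvPolynomial (Fin d) k)) L :=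
    IsScalarTower.of_algebraMap_eq' rfl
  have hN := noeth_fin d k (FractionRing (MvPolynomial (Fin d) k)) L
  let φ : O →+* L := (algebraMap (FractionRing O) L).comp (algebraMap O (FractionRing O))
  have hφ : Function.Injective φ :=
    (algebraMap (FractionRing O) L).injective.comp (IsFractionRing.injective O (FractionRing O))
  have hcomp : φ.comp (algebraMap (MvPolynomial (Fin d) k) O) =
      algebraMap (MvPolynomial (Fin d) k) L := by
    ext x
    · show algebraMap (FractionRing O) L (algebraMap O (FractionRing O)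
        (algebraMap (MvPolynomial (Fin d) k) O (MvPolynomial.C x))) = 
        algebraMap (FractionRing O) L (algebraMap (FractionRing (MvPolynomial (Fin d) k)) (FractionRing O)
          (algebraMap (MvPolynomial (Fin d) k) (FractionRing (MvPolynomial (Fin d) k))
            (MvPolynomial.C x)))
      rw [← IsScalarTower.algebraMap_apply (MvPolynomial (Fin d) k)
        (FractionRing (MvPolynomial (Fin d) k)) (FractionRing O),
        ← IsScalarTower.algebraMap_apply (MvPolynomial (Fin d) k) O (FractionRing O)]
    · show algebraMap (FractionRing O) L (algebraMap O (FractionRing O)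
        (algebraMap (MvPolynomial (Fin d) k) O (MvPolynomial.X x))) = 
        algebraMap (FractionRing O) L (algebraMap (FractionRing (MvPolynomial (Fin d) k)) (FractionRing O)
          (algebraMap (MvPolynomial (Fin d) k) (FractionRing (MvPolynomial (Fin d) k))
            (MvPolynomial.X x)))
      rw [← IsScalarTower.algebraMap_apply (MvPolynomial (Fin d) k)
        (FractionRing (MvPolynomial (Fin d) k)) (FractionRing O),
        ← IsScalarTower.algebraMap_apply (MvPolynomial (Fin d) k) O (FractionRing O)]
  have hint : ∀ x, IsIntegral (MvPolynomial (Fin d) k) (φ x) := by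
    intro x
    obtain ⟨p, hp, hpx⟩ := Algebra.IsIntegral.isIntegral (R := MvPolynomial (Fin d) k) x
    refine ⟨p, hp, ?_⟩
    rw [← hcomp, ← Polynomial.hom_eval₂, hpx, map_zero]
  have h2 : (2 : L) = 0 := by
    have h3 : (algebraMap k O) (2 : k) = (2 : O) := map_ofNat _ 2
    have h4 : (2 : k) = 0 := CharTwo.two_eq_zero
    have h5 : φ (2 : O) = (2 : L) := map_ofNat _ 2
    rw [← h5, ← h3, h4, map_zero, map_zero]
  exact comm_aux hN h2 φ hφ hint σ hT a ha c hc

open Pool.Agent.FrN

/-- the ring generated by the entries is finitely generated -/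
theorem OO_fg {p : ℕ} {Γ F : Type} [Group Γ] [Field F] [Algebra (ZMod p) F]
    (ρ : Γ →* Matrix.SpecialLinearGroup (Fin 2) F) (hfg : Group.FG Γ) : (OO p ρ).FG := by
  classical
  obtain ⟨S, hS⟩ := (Monoid.fg_def.1 (Group.fg_iff_monoid_fg.1 hfg))
  refine ⟨S.biUnion fun s => (Finset.univ : Finset (Fin 2 × Fin 2)).image
    fun q => (ρ s).1 q.1 q.2, ?_⟩
  set A : Subalgebra (ZMod p) F := Algebra.adjoin (ZMod p)
    ((S.biUnion fun s => (Finset.univ : Finset (Fin 2 × Fin 2)).image
      fun q => (ρ s).1 q.1 q.2 : Finset F) : Set F) with hA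
  refine le_antisymm ?_ ?_
  · rw [hA]
    refine Algebra.adjoin_mono ?_
    intro x hx
    rw [Finset.mem_coe, Finset.mem_biUnion] at hx
    obtain ⟨s, _, hx⟩ := hx
    obtain ⟨q, _, rfl⟩ := Finset.mem_image.1 hx
    exact ⟨s, q.1, q.2, rfl⟩
  · have key : ∀ h : Γ, ∀ i j, (ρ h).1 i j ∈ A := by
      intro h
      have hh : h ∈ Submonoid.closure (S : Set Γ) := by rw [hS]; exact Submonoid.mem_top h
      induction hh using Submonoid.closure_induction with
      | mem x hx =>
        intro i j
        refine Algebra.subset_adjoin ?_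
        rw [Finset.mem_coe, Finset.mem_biUnion]
        exact ⟨x, Finset.mem_coe.1 hx, Finset.mem_image.2 ⟨(i, j), Finset.mem_univ _, rfl⟩⟩
      | one =>
        intro i j
        rw [map_one, Matrix.SpecialLinearGroup.coe_one, Matrix.one_apply]
        split_ifs
        · exact A.one_mem
        · exact A.zero_mem
      | mul x y _ _ hx hy =>
        intro i j
        rw [map_mul, Matrix.SpecialLinearGroup.coe_mul, Matrix.mul_apply]
        exact A.sum_mem fun k _ => A.mul_mem (hx i k) (hy k j)
    refine Algebra.adjoin_le ?_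
    rintro x ⟨h, i, j, rfl⟩
    exact key h i j

/-- MAIN RESULT.  Let `Γ` be a finitely generated group, `ρ` a representation of `Γ` in `SL(2, F)`,
`F` a field of characteristic two, such that the trace of `ρ g` is zero only for `g = 1`.  Then every
commutative subgroup of `Γ` is finitely generated. -/
theorem comm_fg {Γ F : Type} [Group Γ] [Field F] [Algebra (ZMod 2) F]
    (ρ : Γ →* Matrix.SpecialLinearGroup (Fin 2) F) (hfg : Group.FG Γ)
    (hT : ∀ g, (ρ g).1.trace = 0 → g = 1) (A : Subgroup Γ)
    (hA : ∀ x ∈ A, ∀ y ∈ A, x * y = y * x) : A.FG := by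
  classical
  have hOfg : (OO 2 ρ).FG := OO_fg ρ hfg
  haveI : Algebra.FiniteType (ZMod 2) (OO 2 ρ) := (OO 2 ρ).fg_iff_finiteType.1 hOfg
  haveI : IsDomain (OO 2 ρ) := inferInstance
  letI : CommGroup A := { (inferInstance : Group A) with
    mul_comm := fun x y => Subtype.ext (hA x.1 x.2 y.1 y.2) }
  let M : Γ → Matrix (Fin 2) (Fin 2) (OO 2 ρ) := fun g i j => ⟨(ρ g).1 i j, mem_OO ρ g i j⟩
  have hMmap : ∀ g, (M g).map (OO 2 ρ).val = (ρ g).1 := by
    intro g
    ext i j
    rfl
  have hinjM : ∀ X Y : Matrix (Fin 2) (Fin 2) (OO 2 ρ),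
      X.map (OO 2 ρ).val = Y.map (OO 2 ρ).val → X = Y := by
    intro X Y h
    ext i j
    exact congrFun (congrFun h i) j
  have hMdet : ∀ g, (M g).det = 1 := by
    intro g
    apply Subtype.ext
    have h1 := (ρ g).2
    rw [Matrix.det_fin_two] at h1 ⊢
    exact h1
  have hMmul : ∀ g h, M (g * h) = M g * M h := by
    intro g h
    ext i j
    show (ρ (g * h)).1 i j = ((M g * M h) i j : OO 2 ρ).1
    rw [map_mul, Matrix.SpecialLinearGroup.coe_mul, Matrix.mul_apply, Matrix.mul_apply,
      Fin.sum_univ_two, Fin.sum_univ_two]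
    rfl
  let σ : A →* Matrix.SpecialLinearGroup (Fin 2) (OO 2 ρ) :=
    MonoidHom.mk' (fun x => ⟨M x.1, hMdet x.1⟩) (by
      intro x y
      apply Subtype.ext
      exact hMmul x.1 y.1)
  have hσT : ∀ a : A, (σ a).1.trace = 0 → a = 1 := by
    intro a ha
    apply Subtype.ext
    apply hT
    have h1 := congrArg Subtype.val ha
    rw [Matrix.trace_fin_two] at h1 ⊢
    exact h1
  have hF : Group.FG A := comm_core (k := ZMod 2) σ hσT
  exact (Group.fg_iff_subgroup_fg A).1 hF

end FrRoq
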