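import Pool.Agent.Lib.MP_305fdd_al.Fr.Roq.Val

/-!
# Finite generation of groups of integral units (Roquette), part 3: the degree valuation
-/

namespace FrRoq

open IsDedekindDomain MonoidWithZeroHom

/-- The degree valuation of a polynomial ring over a field. -/
noncomputable def dv (σ k : Type*) [Field k] :
    Valuation (MvPolynomial σ k) (WithZero (Multiplicative ℤ)) where
  toFun f := by
    classical
    exact if f = 0 then 0 else WithZero.exp (f.totalDegree : ℤ)
  map_zero' := by simp
  map_one' := by simp
  map_mul' f g := by
    by_cases hf : f = 0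
    · simp [hf]
    · by_cases hg : g = 0
      · simp [hg]
      · simp only [mul_eq_zero, hf, hg, or_self, if_false]
        rw [MvPolynomial.totalDegree_mul_of_isDomain hf hg, Nat.cast_add, WithZero.exp_add]
  map_add_le_max' f g := by
    by_cases hf : f = 0
    · subst hf
      rw [zero_add]
      exact le_max_right _ _
    · by_cases hg : g = 0
      · subst hg
        rw [add_zero]
        exact le_max_left _ _
      · by_cases hfg : f + g = 0
        · simp [hfg]
        · simp only [hf, hg, hfg, if_false]
          have h := MvPolynomial.totalDegree_add f g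
          rcases le_max_iff.1 h with h1 | h1
          · exact le_max_of_le_left (WithZero.exp_le_exp.2 (by exact_mod_cast h1))
          · exact le_max_of_le_right (WithZero.exp_le_exp.2 (by exact_mod_cast h1))

theorem dv_apply {σ k : Type*} [Field k] {f : MvPolynomial σ k} (hf : f ≠ 0) :
    dv σ k f = WithZero.exp (f.totalDegree : ℤ) := by
  classical
  exact if_neg hf

theorem dv_supp (σ k : Type*) [Field k] :
    nonZeroDivisors (MvPolynomial σ k) ≤ (dv σ k).supp.primeCompl := by
  intro f hf h
  have hf0 : f ≠ 0 := nonZeroDivisors.ne_zero hf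
  have h1 : dv σ k f = 0 := h
  rw [dv_apply hf0] at h1
  exact WithZero.exp_ne_zero h1

/-- The degree valuation on the field of rational functions. -/
noncomputable def dvK (σ k : Type*) [Field k] (K : Type*) [Field K] [Algebra (MvPolynomial σ k) K]
    [IsFractionRing (MvPolynomial σ k) K] : Valuation K (WithZero (Multiplicative ℤ)) :=
  (dv σ k).extendToLocalization (dv_supp σ k) K

theorem dvK_algebraMap (σ k : Type*) [Field k] (K : Type*) [Field K]
    [Algebra (MvPolynomial σ k) K] [IsFractionRing (MvPolynomial σ k) K] (f : MvPolynomial σ k) :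
    dvK σ k K (algebraMap _ K f) = dv σ k f :=
  Valuation.extendToLocalization_apply_map_apply _ _ _ _

theorem dvK_nontrivial (σ k : Type*) [Field k] [Nonempty σ] (K : Type*) [Field K]
    [Algebra (MvPolynomial σ k) K] [IsFractionRing (MvPolynomial σ k) K] :
    Nontrivial (valueGroup (.ofClass (dvK σ k K))) := by
  obtain ⟨i⟩ := ‹Nonempty σ›
  have h1 : dvK σ k K (algebraMap (MvPolynomial σ k) K (MvPolynomial.X i)) =
      WithZero.exp (1 : ℤ) := by
    rw [dvK_algebraMap, dv_apply (MvPolynomial.X_ne_zero i), MvPolynomial.totalDegree_X]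
    rfl
  rw [Subgroup.nontrivial_iff_exists_ne_one]
  refine ⟨Units.mk0 (dvK σ k K (algebraMap (MvPolynomial σ k) K (MvPolynomial.X i)))
    (by rw [h1]; simp), ?_, ?_⟩
  · apply mem_valueGroup
    exact ⟨_, rfl⟩
  · intro h
    have h2 := congrArg Units.val h
    rw [Units.val_mk0, h1, Units.val_one] at h2
    rw [WithZero.exp_eq_one] at h2
    exact one_ne_zero h2

/-- Roquette for the integral units of a finite separable extension of a rational function field
over a finite field. -/
theorem noeth_sep (d : ℕ) (k : Type*) [Field k] [Finite k] (K L : Type*) [Field K]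
    [Algebra (MvPolynomial (Fin d) k) K] [IsFractionRing (MvPolynomial (Fin d) k) K]
    [Field L] [Algebra K L] [FiniteDimensional K L] [Algebra.IsSeparable K L]
    [Algebra (MvPolynomial (Fin d) k) L] [IsScalarTower (MvPolynomial (Fin d) k) K L] :
    IsNoetherian ℤ (Additive (intUnits (MvPolynomial (Fin d) k) L)) := by
  rcases Nat.eq_zero_or_pos d with hd | hd
  · subst hd
    have h1 : Finite (MvPolynomial (Fin 0) k) :=
      Finite.of_equiv k (MvPolynomial.isEmptyAlgEquiv k (Fin 0)).symm.toEquiv
    have h2 : Finite K := by
      refine Finite.of_surjective (fun p : MvPolynomial (Fin 0) k × MvPolynomial (Fin 0) k =>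
        algebraMap _ K p.1 / algebraMap _ K p.2) ?_
      intro x
      obtain ⟨a, b, _, h⟩ := IsFractionRing.div_surjective (A := MvPolynomial (Fin 0) k) x
      exact ⟨(a, b), h⟩
    have h3 : Finite L := Module.finite_of_finite K
    have h4 : Finite Lˣ := inferInstance
    have h5 : Finite (Additive (intUnits (MvPolynomial (Fin 0) k) L)) :=
      Finite.of_equiv (intUnits (MvPolynomial (Fin 0) k) L) Additive.ofMul
    infer_instance
  · have : Nonempty (Fin d) := ⟨⟨0, hd⟩⟩
    let v := dvK (Fin d) k K
    have hnt : Nontrivial (valueGroup (.ofClass v)) := dvK_nontrivial (Fin d) k K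
    have hcy : IsCyclic (valueGroup (.ofClass v)) := inferInstance
    have hdvr : IsDiscreteValuationRing v.valuationSubring := inferInstance
    let A := v.valuationSubring
    letI : Algebra A L := ((algebraMap K L).comp (algebraMap A K)).toAlgebra
    haveI : IsScalarTower A K L := IsScalarTower.of_algebraMap_eq' rfl
    refine noeth_intUnits (A := A) (P := MvPolynomial (Fin d) k) (K := K) (L := L) ?_
    have hfin : (Set.range (fun a : k => algebraMap (MvPolynomial (Fin d) k) K
        (MvPolynomial.C a))).Finite := Set.finite_range _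
    refine hfin.subset ?_
    rintro x ⟨⟨a, ha⟩, ⟨f, hf⟩⟩
    have h1 : v x ≤ 1 := by
      rw [← ha]
      exact a.2
    rw [← hf] at h1
    have h2 : dv (Fin d) k f ≤ 1 := by
      rw [← dvK_algebraMap (Fin d) k K]
      exact h1
    by_cases hf0 : f = 0
    · refine ⟨0, ?_⟩
      rw [← hf, hf0]
      simp
    · rw [dv_apply hf0, ← WithZero.exp_zero, WithZero.exp_le_exp] at h2
      have h3 : f.totalDegree = 0 := by
        have : (f.totalDegree : ℤ) ≤ 0 := h2
        omega
      rw [MvPolynomial.totalDegree_eq_zero_iff_eq_C] at h3
      refine ⟨MvPolynomial.coeff 0 f, ?_⟩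
      show algebraMap (MvPolynomial (Fin d) k) K (MvPolynomial.C (MvPolynomial.coeff 0 f)) = x
      rw [← h3, hf]

end FrRoq
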