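import Pool.Agent.Lib.MP_305fdd_al.Fr.Roq.Deg

/-!
# Finite generation of groups of integral units (Roquette), part 4: inseparable extensions
-/

namespace FrRoq

/-- Passing to a purely inseparable extension. -/
theorem noeth_insep {P E L : Type*} [CommRing P] [Field E] [Field L] [Algebra E L]
    [Algebra P E] [Algebra P L] [IsScalarTower P E L] [FiniteDimensional E L]
    [IsPurelyInseparable E L] (h : IsNoetherian ℤ (Additive (intUnits P E))) :
    IsNoetherian ℤ (Additive (intUnits P L)) := by
  classical
  obtain ⟨q, hq⟩ := ExpChar.exists E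
  have hqL : ExpChar L q := expChar_of_injective_algebraMap (algebraMap E L).injective q
  have hex : IsPurelyInseparable.HasExponent E L :=
    IsPurelyInseparable.hasExponent_of_finiteDimensional
  obtain ⟨n, hn⟩ : ∃ n : ℕ, ∀ a : L, a ^ q ^ n ∈ (algebraMap E L).range :=
    ⟨_, fun a => IsPurelyInseparable.exponent_def' E q a⟩
  have hinjE : Function.Injective (algebraMap E L) := (algebraMap E L).injective
  -- the map
  have hch : ∀ u : Lˣ, ∃ v : Eˣ, algebraMap E L (v : E) = (u : L) ^ q ^ n := by
    intro u
    obtain ⟨v, hv⟩ := hn (u : L)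
    have hv0 : v ≠ 0 := by
      rintro rfl
      rw [map_zero] at hv
      exact pow_ne_zero _ u.ne_zero hv.symm
    exact ⟨Units.mk0 v hv0, hv⟩
  choose φ hφ using hch
  have hφm : ∀ u v : Lˣ, φ (u * v) = φ u * φ v := by
    intro u v
    apply Units.ext
    apply hinjE
    rw [hφ, Units.val_mul, Units.val_mul, map_mul, hφ, hφ, mul_pow]
  let Φ : Lˣ →* Eˣ := MonoidHom.mk' φ hφm
  have hint : ∀ u : Lˣ, IsIntegral P (u : L) → IsIntegral P ((φ u : Eˣ) : E) := by
    intro u hu
    have h1 : IsIntegral P (algebraMap E L (φ u : E)) := by
      rw [hφ]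
      exact hu.pow _
    exact (isIntegral_algebraMap_iff hinjE).1 h1
  have hΦ : ∀ u ∈ intUnits P L, Φ u ∈ intUnits P E := by
    rintro u ⟨h1, h2⟩
    refine ⟨hint u h1, ?_⟩
    rw [← map_inv]
    exact hint u⁻¹ h2
  have hΦi : Function.Injective Φ := by
    intro u v huv
    have h1 : algebraMap E L (φ u : E) = algebraMap E L (φ v : E) := by
      have : φ u = φ v := huv
      rw [this]
    rw [hφ, hφ] at h1
    apply Units.ext
    exact iterateFrobenius_inj L q n (by rw [iterateFrobenius_def, iterateFrobenius_def]; exact h1)
  let Ψ : intUnits P L →* intUnits P E :=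
    (Φ.comp (intUnits P L).subtype).codRestrict (intUnits P E) (fun u => hΦ u.1 u.2)
  have hΨi : Function.Injective Ψ := by
    intro u v huv
    have h1 := congrArg Subtype.val huv
    exact Subtype.ext (hΦi h1)
  exact isNoetherian_of_injective (Ψ.toAdditive).toIntLinearMap (fun u v huv => hΨi huv)

/-- Roquette for the integral units of a finite extension of a rational function field
over a finite field. -/
theorem noeth_fin (d : ℕ) (k : Type*) [Field k] [Finite k] (K L : Type*) [Field K]
    [Algebra (MvPolynomial (Fin d) k) K] [IsFractionRing (MvPolynomial (Fin d) k) K]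
    [Field L] [Algebra K L] [FiniteDimensional K L]
    [Algebra (MvPolynomial (Fin d) k) L] [IsScalarTower (MvPolynomial (Fin d) k) K L] :
    IsNoetherian ℤ (Additive (intUnits (MvPolynomial (Fin d) k) L)) := by
  let E := separableClosure K L
  have h1 : IsPurelyInseparable E L := separableClosure.isPurelyInseparable K L
  have h2 : Algebra.IsSeparable K E := inferInstance
  have h3 : FiniteDimensional K E := inferInstance
  have h4 : FiniteDimensional E L := inferInstance
  have h5 : IsScalarTower (MvPolynomial (Fin d) k) K E := inferInstance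
  have h6 : IsScalarTower (MvPolynomial (Fin d) k) E L := by
    refine IsScalarTower.of_algebraMap_eq fun x => ?_
    rw [IsScalarTower.algebraMap_apply (MvPolynomial (Fin d) k) K E,
      ← IsScalarTower.algebraMap_apply K E L, ← IsScalarTower.algebraMap_apply]
  exact noeth_insep (P := MvPolynomial (Fin d) k) (E := E) (L := L) (noeth_sep d k K E)

end FrRoq
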