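import Mathlib

/-!
# Finite generation of groups of integral units (Roquette), part 1

A DVR `A` and an integrally closed `P` in the same field `K` such that only finitely many
elements of `K` are in both.  Then for `L / K` finite separable the group of the `u` in `L` with
`u` and `u^{-1}` integral over `P` is finitely generated.
-/

namespace FrRoq

open IsDedekindDomain

/-- The subgroup of the units `u` of `L` with `u`, `u^{-1}` integral over `P`. -/
def intUnits (P L : Type*) [CommRing P] [Field L] [Algebra P L] : Subgroup Lˣ where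
  carrier := {u | IsIntegral P (u : L) ∧ IsIntegral P ((u⁻¹ : Lˣ) : L)}
  one_mem' := by
    refine ⟨?_, ?_⟩
    · simpa using isIntegral_one
    · simpa using isIntegral_one
  mul_mem' := by
    rintro a b ⟨h1, h2⟩ ⟨h3, h4⟩
    refine ⟨?_, ?_⟩
    · simpa using h1.mul h3
    · rw [mul_inv]
      simpa using h2.mul h4
  inv_mem' := by
    rintro a ⟨h1, h2⟩
    refine ⟨h2, ?_⟩
    simpa using h1

theorem mem_intUnits {P L : Type*} [CommRing P] [Field L] [Algebra P L] {u : Lˣ} :
    u ∈ intUnits P L ↔ IsIntegral P (u : L) ∧ IsIntegral P ((u⁻¹ : Lˣ) : L) := Iff.rfl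

/-- finitely many polynomials of bounded degree with coefficients in a finite set -/
theorem finite_poly {K : Type*} [Field K] (Z : Set K) (hZ : Z.Finite) (n : ℕ) :
    {f : Polynomial K | f.natDegree ≤ n ∧ ∀ i, f.coeff i ∈ Z}.Finite := by
  classical
  have hfin : Finite Z := hZ
  have : Finite (Fin (n + 1) → Z) := inferInstance
  refine Set.Finite.of_finite_image
    (f := fun f : Polynomial K => fun i : Fin (n + 1) => f.coeff i) ?_ ?_
  · refine Set.Finite.subset (Set.finite_range
      (fun g : Fin (n + 1) → Z => fun i => (g i : K))) ?_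
    rintro _ ⟨f, ⟨_, h2⟩, rfl⟩
    exact ⟨fun i => ⟨f.coeff i, h2 _⟩, rfl⟩
  · rintro f ⟨hf, _⟩ g ⟨hg, _⟩ hfg
    ext i
    by_cases hi : i ≤ n
    · exact congrFun hfg ⟨i, by omega⟩
    · rw [Polynomial.coeff_eq_zero_of_natDegree_lt (by omega),
        Polynomial.coeff_eq_zero_of_natDegree_lt (by omega)]

/-- finitely many roots of finitely many polynomials -/
theorem finite_roots {K L : Type*} [Field K] [Field L] [Algebra K L]
    (S : Set (Polynomial K)) (hS : S.Finite) :
    {x : L | ∃ f ∈ S, f ≠ 0 ∧ Polynomial.aeval x f = 0}.Finite := by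
  classical
  have : {x : L | ∃ f ∈ S, f ≠ 0 ∧ Polynomial.aeval x f = 0}
      = ⋃ f ∈ {f ∈ S | f ≠ 0}, {x : L | Polynomial.aeval x f = 0} := by
    ext x
    simp only [Set.mem_setOf_eq, Set.mem_iUnion, exists_prop]
    constructor
    · rintro ⟨f, h1, h2, h3⟩
      exact ⟨f, ⟨h1, h2⟩, h3⟩
    · rintro ⟨f, ⟨h1, h2⟩, h3⟩
      exact ⟨f, h1, h2, h3⟩
  rw [this]
  refine Set.Finite.biUnion (hS.subset (fun f hf => hf.1)) ?_
  rintro f ⟨_, hf⟩
  refine Set.Finite.subset (Polynomial.rootSet_finite f L) ?_
  intro x hx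
  rw [Polynomial.mem_rootSet]
  exact ⟨hf, hx⟩

/-- kernel: `u` integral over both `A` and `P` : finitely many -/
theorem finite_both {A P K L : Type*} [CommRing A] [IsDomain A] [IsIntegrallyClosed A]
    [CommRing P] [IsDomain P] [IsIntegrallyClosed P] [Field K] [Algebra A K] [IsFractionRing A K]
    [Algebra P K] [IsFractionRing P K] [Field L] [Algebra K L] [FiniteDimensional K L]
    [Algebra A L] [IsScalarTower A K L] [Algebra P L] [IsScalarTower P K L]
    (hfin : {x : K | x ∈ Set.range (algebraMap A K) ∧ x ∈ Set.range (algebraMap P K)}.Finite) :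
    {u : L | IsIntegral A u ∧ IsIntegral P u}.Finite := by
  have h1 := finite_poly _ hfin (Module.finrank K L)
  refine (finite_roots (L := L) _ h1).subset ?_
  rintro u ⟨hA, hP⟩
  have hK : IsIntegral K u := Algebra.IsIntegral.isIntegral u
  refine ⟨minpoly K u, ⟨minpoly.natDegree_le u, ?_⟩, minpoly.ne_zero hK, minpoly.aeval K u⟩
  intro i
  refine ⟨?_, ?_⟩
  · rw [minpoly.isIntegrallyClosed_eq_field_fractions' K hA, Polynomial.coeff_map]
    exact ⟨_, rfl⟩
  · rw [minpoly.isIntegrallyClosed_eq_field_fractions' K hP, Polynomial.coeff_map]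
    exact ⟨_, rfl⟩

end FrRoq
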