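import Pool.Agent.Lib.MP_305fdd_al.Fr.Roq.Units

/-!
# Finite generation of groups of integral units (Roquette), part 2: the valuations at infinity
-/

namespace FrRoq

open IsDedekindDomain

/-- one valuation of a Dedekind domain on the units of its field. -/
noncomputable def val1 (C L : Type*) [CommRing C] [IsDedekindDomain C] [Field L] [Algebra C L]
    [IsFractionRing C L] (w : HeightOneSpectrum C) : Lˣ →* Multiplicative ℤ :=
  (WithZero.unitsWithZeroEquiv (α := Multiplicative ℤ)).toMonoidHom.comp
    (Units.map ((w.valuation L).toMonoidWithZeroHom : L →* WithZero (Multiplicative ℤ)))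

/-- all the valuations of a Dedekind domain on the units of its field, additively. -/
noncomputable def valHom (C L : Type*) [CommRing C] [IsDedekindDomain C] [Field L] [Algebra C L]
    [IsFractionRing C L] : Additive Lˣ →+ (HeightOneSpectrum C → ℤ) :=
  Pi.addMonoidHom (fun w => MonoidHom.toAdditiveLeft (val1 C L w))

theorem valHom_eq_zero {C L : Type*} [CommRing C] [IsDedekindDomain C] [Field L] [Algebra C L]
    [IsFractionRing C L] {u : Additive Lˣ} (h : valHom C L u = 0) :
    ((Additive.toMul u : Lˣ) : L) ∈ (algebraMap C L).range := by
  apply HeightOneSpectrum.mem_integers_of_valuation_le_one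
  intro w
  have h1 := congrFun h w
  have h2 : val1 C L w (Additive.toMul u) = 1 := h1
  have h3 : Units.map ((w.valuation L).toMonoidWithZeroHom : L →* WithZero (Multiplicative ℤ))
      (Additive.toMul u) = 1 := by
    apply (WithZero.unitsWithZeroEquiv (α := Multiplicative ℤ)).injective
    rw [map_one]
    exact h2
  have h4 := congrArg Units.val h3
  rw [Units.coe_map] at h4
  exact le_of_eq h4

/-- finitely many primes over a DVR -/
theorem finite_heightOne {A C : Type*} [CommRing A] [IsDomain A] [IsDiscreteValuationRing A]
    [CommRing C] [IsDomain C] [IsDedekindDomain C] [Algebra A C] [Algebra.IsIntegral A C]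
    [Module.IsTorsionFree A C] : Finite (HeightOneSpectrum C) := by
  have h1 := IsDedekindDomain.primesOver_finite (IsLocalRing.maximalIdeal A) C
  have : Finite (Ideal.primesOver (IsLocalRing.maximalIdeal A) C) := h1
  refine Finite.of_injective (β := Ideal.primesOver (IsLocalRing.maximalIdeal A) C)
    (fun w => ⟨w.asIdeal, w.isPrime, ⟨?_⟩⟩) ?_
  · have hp : (w.asIdeal.under A).IsPrime := by
      have := w.isPrime
      exact Ideal.IsPrime.under A w.asIdeal
    have hne : w.asIdeal.under A ≠ ⊥ := mt Ideal.eq_bot_of_comap_eq_bot w.ne_bot
    exact (IsLocalRing.eq_maximalIdeal (hp.isMaximal hne)).symm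
  · intro w w' h
    ext1
    exact congrArg (fun x => x.1) h

theorem noeth_intUnits {A P K L : Type*} [CommRing A] [IsDomain A] [IsDiscreteValuationRing A]
    [CommRing P] [IsDomain P] [IsIntegrallyClosed P] [Field K] [Algebra A K] [IsFractionRing A K]
    [Algebra P K] [IsFractionRing P K] [Field L] [Algebra K L] [FiniteDimensional K L]
    [Algebra.IsSeparable K L]
    [Algebra A L] [IsScalarTower A K L] [Algebra P L] [IsScalarTower P K L]
    (hfin : {x : K | x ∈ Set.range (algebraMap A K) ∧ x ∈ Set.range (algebraMap P K)}.Finite) :
    IsNoetherian ℤ (Additive (intUnits P L)) := by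
  classical
  have hD : IsDedekindDomain (integralClosure A L) := integralClosure.isDedekindDomain A K L
  have hF : IsFractionRing (integralClosure A L) L :=
    integralClosure.isFractionRing_of_finite_extension K L
  have hinj : Function.Injective (algebraMap A L) := by
    rw [IsScalarTower.algebraMap_eq A K L]
    exact (algebraMap K L).injective.comp (IsFractionRing.injective A K)
  have : FaithfulSMul A L := (faithfulSMul_iff_algebraMap_injective A L).2 hinj
  have hI : Algebra.IsIntegral A (integralClosure A L) := inferInstance
  have hT : Module.IsTorsionFree A (integralClosure A L) := inferInstance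
  have hfs : Finite (HeightOneSpectrum (integralClosure A L)) := finite_heightOne (A := A)
  have hfb := finite_both (A := A) (P := P) (K := K) (L := L) hfin
  let ι : Additive (intUnits P L) →+ Additive Lˣ := (intUnits P L).subtype.toAdditive
  let g : Additive (intUnits P L) →ₗ[ℤ] (HeightOneSpectrum (integralClosure A L) → ℤ) :=
    ((valHom (integralClosure A L) L).comp ι).toIntLinearMap
  have hker : Finite (LinearMap.ker g) := by
    have hfb' : Finite {u : L | IsIntegral A u ∧ IsIntegral P u} := hfb
    refine Finite.of_injective (β := {u : L | IsIntegral A u ∧ IsIntegral P u})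
      (fun x => ⟨(((Additive.toMul (x : Additive (intUnits P L)) : intUnits P L) : Lˣ) : L),
        ?_, (Additive.toMul (x : Additive (intUnits P L))).2.1⟩) ?_
    · have hx : g x.1 = 0 := x.2
      have hx' : valHom (integralClosure A L) L (ι x.1) = 0 := hx
      obtain ⟨c, hc⟩ := valHom_eq_zero hx'
      have := c.2
      rw [mem_integralClosure_iff] at this
      have h5 : (((Additive.toMul (x : Additive (intUnits P L)) : intUnits P L) : Lˣ) : L) = (c : L) :=
        hc.symm
      rw [h5]
      exact this
    · intro x y hxy
      have h1 := congrArg Subtype.val hxy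
      apply Subtype.ext
      apply Additive.toMul.injective
      apply Subtype.ext
      apply Units.ext
      exact h1
  exact isNoetherian_of_range_eq_ker (LinearMap.ker g).subtype g (by simp)

end FrRoq
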